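import Mathlib

set_option autoImplicit false

/-!
# Pixley-Roy hyperspaces of selectively highly divergent spaces

Let `X` be selectively highly divergent (SHD) and let `U n` be nonempty open sets of nonempty finite
subsets of `X`. Choose `F n` and `V n` with `[F n, V n] ⊆ U n`, choose `x n ∈ V n` without convergent
subsequences and let `H n = F n ∪ {x n}`. If a subsequence of `H` converged to a finite set `F`
then the corresponding subsequence of `x` would eventually be in every open set containing `F`,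
and then some subsequence of it would converge to a point of `F`.
-/

open Filter Topology

universe u

namespace Pool.Agent.Results.MP_3a5480_gt.PixleyRoySHD

/-- Selectively highly divergent spaces. -/
def SHD (X : Type u) [TopologicalSpace X] : Prop :=
  ∀ U : ℕ → Set X, (∀ n, IsOpen (U n)) → (∀ n, (U n).Nonempty) →
    ∃ x : ℕ → X, (∀ n, x n ∈ U n) ∧
      ∀ (φ : ℕ → ℕ) (a : X), StrictMono φ → ¬ Tendsto (fun k => x (φ k)) atTop (𝓝 a)

/-- The points of the Pixley-Roy hyperspace: the nonempty finite subsets. -/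
def PixleyRoy (X : Type u) : Type u := {A : Set X // A.Nonempty ∧ A.Finite}

/-- The Pixley-Roy topology: a set `𝒰` is open if for each `F` in `𝒰` there is an open set
`V ⊇ F` such that all `H` with `F ⊆ H ⊆ V` are in `𝒰`. -/
instance (X : Type u) [TopologicalSpace X] : TopologicalSpace (PixleyRoy X) where
  IsOpen 𝒰 := ∀ F ∈ 𝒰, ∃ V : Set X, IsOpen V ∧ F.1 ⊆ V ∧
    ∀ H : PixleyRoy X, F.1 ⊆ H.1 → H.1 ⊆ V → H ∈ 𝒰
  isOpen_univ F _ := ⟨Set.univ, isOpen_univ, Set.subset_univ _, fun _ _ _ => trivial⟩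
  isOpen_inter := by
    rintro 𝒰 𝒱 h1 h2 F ⟨hF1, hF2⟩
    obtain ⟨V, hV, hFV, hV'⟩ := h1 F hF1
    obtain ⟨W, hW, hFW, hW'⟩ := h2 F hF2
    exact ⟨V ∩ W, hV.inter hW, Set.subset_inter hFV hFW, fun H hH hH' =>
      ⟨hV' H hH (hH'.trans Set.inter_subset_left), hW' H hH (hH'.trans Set.inter_subset_right)⟩⟩
  isOpen_sUnion := by
    rintro S hS F ⟨𝒰, h𝒰, hF⟩
    obtain ⟨V, hV, hFV, hV'⟩ := hS 𝒰 h𝒰 F hF
    exact ⟨V, hV, hFV, fun H hH hH' => ⟨𝒰, h𝒰, hV' H hH hH'⟩⟩

/-- A sequence which is eventually in every open set containing a finite set has a subsequence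
converging to a point of the finite set. -/
theorem exists_subseq {X : Type u} [TopologicalSpace X] {F : Set X} (hF : F.Finite) :
    ∀ y : ℕ → X, (∀ V : Set X, IsOpen V → F ⊆ V → ∀ᶠ k in atTop, y k ∈ V) →
      ∃ (φ : ℕ → ℕ) (a : X), StrictMono φ ∧ Tendsto (fun k => y (φ k)) atTop (𝓝 a) := by
  induction F, hF using Set.Finite.induction_on with
  | empty =>
    intro y hy
    obtain ⟨k, hk⟩ := (hy ∅ isOpen_empty (Set.empty_subset _)).exists
    exact hk.elim
  | @insert a F' ha hF' ih =>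
    intro y hy
    by_cases hlim : Tendsto y atTop (𝓝 a)
    · exact ⟨id, a, strictMono_id, hlim⟩
    · have h1 : ∃ V : Set X, IsOpen V ∧ a ∈ V ∧ ∃ᶠ k in atTop, y k ∉ V := by
        by_contra hcon
        push Not at hcon
        refine hlim (tendsto_nhds.2 fun V hV haV => ?_)
        exact hcon V hV haV
      obtain ⟨V, hV, haV, hfr⟩ := h1
      obtain ⟨ψ, hψ, hψV⟩ := extraction_of_frequently_atTop hfr
      obtain ⟨φ, b, hφ, hb⟩ := ih (fun k => y (ψ k)) fun W hW hFW => by
        have h2 := hy (V ∪ W) (hV.union hW) (by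
          rintro z (rfl | hz)
          · exact Or.inl haV
          · exact Or.inr (hFW hz))
        exact (hψ.tendsto_atTop.eventually h2).mono fun k hk => hk.resolve_left (hψV k)
      exact ⟨fun k => ψ (φ k), b, hψ.comp hφ, hb⟩

/-- The Pixley-Roy hyperspace of a selectively highly divergent space (`T₁` or not) is selectively
highly divergent. -/
theorem result (X : Type u) [TopologicalSpace X] (hX : SHD X) : SHD (PixleyRoy X) := by
  intro 𝒰 hopen hne
  choose F hF using hne
  choose V hV hFV hV' using fun n => hopen n (F n) (hF n)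
  obtain ⟨x, hx, hdiv⟩ := hX V hV fun n => (F n).2.1.mono (hFV n)
  let H : ℕ → PixleyRoy X := fun n =>
    ⟨insert (x n) (F n).1, Set.insert_nonempty _ _, (F n).2.2.insert _⟩
  refine ⟨H, fun n => hV' n _ (Set.subset_insert _ _) (Set.insert_subset (hx n) (hFV n)), ?_⟩
  intro φ A hφ hA
  obtain ⟨ψ, a, hψ, ha⟩ := exists_subseq A.2.2 (fun k => x (φ k)) fun W hW hAW => by
    have hnhds : {G : PixleyRoy X | A.1 ⊆ G.1 ∧ G.1 ⊆ W} ∈ 𝓝 A := by
      refine IsOpen.mem_nhds ?_ ⟨subset_rfl, hAW⟩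
      rintro G ⟨hG1, hG2⟩
      exact ⟨W, hW, hG2, fun K hK1 hK2 => ⟨Set.Subset.trans hG1 hK1, hK2⟩⟩
    have h3 : ∀ᶠ k in atTop, H (φ k) ∈ {G : PixleyRoy X | A.1 ⊆ G.1 ∧ G.1 ⊆ W} := hA hnhds
    exact h3.mono fun k hk => hk.2 (Set.mem_insert _ _)
  exact hdiv (fun k => φ (ψ k)) a (hφ.comp hψ) ha

end Pool.Agent.Results.MP_3a5480_gt.PixleyRoySHD
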